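import Mathlib

set_option autoImplicit false

open Real Set

namespace Pool.CC

/-- The Minkowski form of signature `(3,1)` on `ℝ⁴`. -/
def mink (x y : Fin 4 → ℝ) : ℝ := -(x 0 * y 0) + x 1 * y 1 + x 2 * y 2 + x 3 * y 3

/-- The hyperboloid model of hyperbolic 3-space of constant sectional curvature `-a^2`:
the upper sheet of `⟨x, x⟩ = -1/a^2` in Minkowski space, with the Riemannian metric
induced by the Minkowski form. -/
def Hyp (a : ℝ) : Set (Fin 4 → ℝ) := {x | mink x x = -(1 / a ^ 2) ∧ 0 < x 0}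

/-- The partial derivative `∂X/∂u`. -/
noncomputable def dU (X : ℝ → ℝ → Fin 4 → ℝ) : ℝ → ℝ → Fin 4 → ℝ :=
  fun u v => deriv (fun s => X s v) u

/-- The partial derivative `∂X/∂v`. -/
noncomputable def dV (X : ℝ → ℝ → Fin 4 → ℝ) : ℝ → ℝ → Fin 4 → ℝ :=
  fun u v => deriv (fun t => X u t) v

/-- First fundamental form coefficient `E = ⟨X_u, X_u⟩`. -/
noncomputable def cE (X : ℝ → ℝ → Fin 4 → ℝ) (u v : ℝ) : ℝ := mink (dU X u v) (dU X u v)

/-- First fundamental form coefficient `F = ⟨X_u, X_v⟩`. -/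
noncomputable def cF (X : ℝ → ℝ → Fin 4 → ℝ) (u v : ℝ) : ℝ := mink (dU X u v) (dV X u v)

/-- First fundamental form coefficient `G = ⟨X_v, X_v⟩`. -/
noncomputable def cG (X : ℝ → ℝ → Fin 4 → ℝ) (u v : ℝ) : ℝ := mink (dV X u v) (dV X u v)

/-- `X` parametrizes a smooth embedded annulus `ℝ × (ℝ / 2πℤ)` in `Hyp a`: it is a smooth
immersion into `Hyp a`, `2π`-periodic in `v`, and injective modulo this period. -/
structure IsEmbeddedAnnulus (a : ℝ) (X : ℝ → ℝ → Fin 4 → ℝ) : Prop where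
  smooth : ContDiff ℝ ((⊤ : ℕ∞) : WithTop ℕ∞) (fun p : ℝ × ℝ => X p.1 p.2)
  mem_hyp : ∀ u v, X u v ∈ Hyp a
  periodic : ∀ u v, X u (v + 2 * π) = X u v
  immersed : ∀ u v, LinearIndependent ℝ ![dU X u v, dV X u v]
  embedded : ∀ u v u' v', X u v = X u' v' → u = u' ∧ ∃ k : ℤ, v' = v + k * (2 * π)

/-- `ν` is a unit normal field, tangent to the hyperboloid, of the surface `X`. -/
def IsUnitNormal (X ν : ℝ → ℝ → Fin 4 → ℝ) : Prop :=
  ∀ u v, mink (ν u v) (ν u v) = 1 ∧ mink (ν u v) (X u v) = 0 ∧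
    mink (ν u v) (dU X u v) = 0 ∧ mink (ν u v) (dV X u v) = 0

/-- The mean curvature `(κ₁ + κ₂)/2 = (e G - 2 f F + g E) / (2 (E G - F^2))` of the surface `X`
with respect to the unit normal `ν`, where `e = ⟨X_uu, ν⟩`, `f = ⟨X_uv, ν⟩`, `g = ⟨X_vv, ν⟩`. -/
noncomputable def meanCurv (X ν : ℝ → ℝ → Fin 4 → ℝ) (u v : ℝ) : ℝ :=
  (mink (dU (dU X) u v) (ν u v) * cG X u v - 2 * mink (dV (dU X) u v) (ν u v) * cF X u v
    + mink (dV (dV X) u v) (ν u v) * cE X u v) / (2 * (cE X u v * cG X u v - cF X u v ^ 2))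

/-- Area of the compact annulus `X([-U, U] × ℝ/2πℤ)`. -/
noncomputable def area (X : ℝ → ℝ → Fin 4 → ℝ) (U : ℝ) : ℝ :=
  ∫ u in (-U)..U, ∫ v in (0)..(2 * π), √(cE X u v * cG X u v - cF X u v ^ 2)

/-- Total length of the two boundary circles `u = -U` and `u = U`. -/
noncomputable def bdryLength (X : ℝ → ℝ → Fin 4 → ℝ) (U : ℝ) : ℝ :=
  (∫ v in (0)..(2 * π), √(cG X (-U) v)) + ∫ v in (0)..(2 * π), √(cG X U v)

end Pool.CC
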