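import Pool.Agent.H70.CC.Defs

set_option autoImplicit false

open Real Set

namespace Pool.CC

/-! ### The explicit surfaces -/

/-- The catenoid cousin with parameter `m`, in curvature `-a^2`. -/
noncomputable def cous (a m : ℝ) : ℝ → ℝ → Fin 4 → ℝ := fun u v =>
  ![((1 + m ^ 2) / (2 * m) * cosh u * cosh (m * u) - sinh u * sinh (m * u)) / a,
    ((1 - m ^ 2) / (2 * m) * cosh (m * u) * cos v) / a,
    ((1 - m ^ 2) / (2 * m) * cosh (m * u) * sin v) / a,
    ((1 + m ^ 2) / (2 * m) * sinh u * cosh (m * u) - cosh u * sinh (m * u)) / a]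

noncomputable def cousU (a m : ℝ) : ℝ → ℝ → Fin 4 → ℝ := fun u v =>
  ![((1 - m ^ 2) / (2 * m) * (sinh u * cosh (m * u) - m * (cosh u * sinh (m * u)))) / a,
    ((1 - m ^ 2) / (2 * m) * (m * sinh (m * u)) * cos v) / a,
    ((1 - m ^ 2) / (2 * m) * (m * sinh (m * u)) * sin v) / a,
    ((1 - m ^ 2) / (2 * m) * (cosh u * cosh (m * u) - m * (sinh u * sinh (m * u)))) / a]

noncomputable def cousV (a m : ℝ) : ℝ → ℝ → Fin 4 → ℝ := fun u v =>
  ![0,
    ((1 - m ^ 2) / (2 * m) * cosh (m * u) * (-sin v)) / a,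
    ((1 - m ^ 2) / (2 * m) * cosh (m * u) * cos v) / a,
    0]

noncomputable def cousUU (a m : ℝ) : ℝ → ℝ → Fin 4 → ℝ := fun u v =>
  ![((1 - m ^ 2) / (2 * m) * ((1 - m ^ 2) * (cosh u * cosh (m * u)))) / a,
    ((1 - m ^ 2) / (2 * m) * (m * (m * cosh (m * u))) * cos v) / a,
    ((1 - m ^ 2) / (2 * m) * (m * (m * cosh (m * u))) * sin v) / a,
    ((1 - m ^ 2) / (2 * m) * ((1 - m ^ 2) * (sinh u * cosh (m * u)))) / a]

noncomputable def cousUV (a m : ℝ) : ℝ → ℝ → Fin 4 → ℝ := fun u v =>
  ![0,
    ((1 - m ^ 2) / (2 * m) * (m * sinh (m * u)) * (-sin v)) / a,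
    ((1 - m ^ 2) / (2 * m) * (m * sinh (m * u)) * cos v) / a,
    0]

noncomputable def cousVV (a m : ℝ) : ℝ → ℝ → Fin 4 → ℝ := fun u v =>
  ![0,
    ((1 - m ^ 2) / (2 * m) * cosh (m * u) * (-cos v)) / a,
    ((1 - m ^ 2) / (2 * m) * cosh (m * u) * (-sin v)) / a,
    0]

/-- The unit normal. -/
noncomputable def nrm (m : ℝ) : ℝ → ℝ → Fin 4 → ℝ := fun u v =>
  ![-((1 + m ^ 2) / (2 * m) * cosh u * cosh (m * u) - sinh u * sinh (m * u))
      + m / cosh (m * u) * cosh u,
    -((1 - m ^ 2) / (2 * m) * cosh (m * u) * cos v) - m / cosh (m * u) * cos v,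
    -((1 - m ^ 2) / (2 * m) * cosh (m * u) * sin v) - m / cosh (m * u) * sin v,
    -((1 + m ^ 2) / (2 * m) * sinh u * cosh (m * u) - cosh u * sinh (m * u))
      + m / cosh (m * u) * sinh u]

section derivs

variable (a m u v : ℝ)

lemma hasDerivAt_cosh_mul : HasDerivAt (fun s => cosh (m * s)) (m * sinh (m * u)) u := by
  have h := ((hasDerivAt_id u).const_mul m).cosh
  refine HasDerivAt.congr_deriv h ?_
  simp [mul_comm]

lemma hasDerivAt_sinh_mul : HasDerivAt (fun s => sinh (m * s)) (m * cosh (m * u)) u := by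
  have h := ((hasDerivAt_id u).const_mul m).sinh
  refine HasDerivAt.congr_deriv h ?_
  simp [mul_comm]

end derivs

lemma dU_cous (a m : ℝ) (hm : m ≠ 0) : dU (cous a m) = cousU a m := by
  funext u v
  apply HasDerivAt.deriv
  rw [hasDerivAt_pi]
  have hC := hasDerivAt_cosh_mul m u
  have hS := hasDerivAt_sinh_mul m u
  have hc := Real.hasDerivAt_cosh u
  have hs := Real.hasDerivAt_sinh u
  intro i
  fin_cases i
  · simp only [cous, cousU]
    refine HasDerivAt.congr_deriv ((((hc.const_mul ((1 + m ^ 2) / (2 * m))).mul hC).sub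
      (hs.mul hS)).div_const a) ?_
    simp
    field_simp
    ring
  · simp only [cous, cousU]
    refine HasDerivAt.congr_deriv (((hC.const_mul ((1 - m ^ 2) / (2 * m))).mul_const
      (cos v)).div_const a) ?_
    simp
  · simp only [cous, cousU]
    refine HasDerivAt.congr_deriv (((hC.const_mul ((1 - m ^ 2) / (2 * m))).mul_const
      (sin v)).div_const a) ?_
    simp
  · simp only [cous, cousU]
    refine HasDerivAt.congr_deriv ((((hs.const_mul ((1 + m ^ 2) / (2 * m))).mul hC).sub
      (hc.mul hS)).div_const a) ?_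
    simp
    field_simp
    ring

lemma dV_cous (a m : ℝ) : dV (cous a m) = cousV a m := by
  funext u v
  apply HasDerivAt.deriv
  rw [hasDerivAt_pi]
  have hc := Real.hasDerivAt_cos v
  have hs := Real.hasDerivAt_sin v
  intro i
  fin_cases i
  · simp only [cous, cousV]
    exact hasDerivAt_const _ _
  · simp only [cous, cousV]
    exact (hc.const_mul ((1 - m ^ 2) / (2 * m) * cosh (m * u))).div_const a
  · simp only [cous, cousV]
    exact (hs.const_mul ((1 - m ^ 2) / (2 * m) * cosh (m * u))).div_const a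
  · simp only [cous, cousV]
    exact hasDerivAt_const _ _

lemma dU_cousU (a m : ℝ) (hm : m ≠ 0) : dU (cousU a m) = cousUU a m := by
  funext u v
  apply HasDerivAt.deriv
  rw [hasDerivAt_pi]
  have hC := hasDerivAt_cosh_mul m u
  have hS := hasDerivAt_sinh_mul m u
  have hc := Real.hasDerivAt_cosh u
  have hs := Real.hasDerivAt_sinh u
  intro i
  fin_cases i
  · simp only [cousU, cousUU]
    refine HasDerivAt.congr_deriv ((((hs.mul hC).sub ((hc.mul hS).const_mul m)).const_mul
      ((1 - m ^ 2) / (2 * m))).div_const a) ?_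
    simp
    field_simp
    ring
  · simp only [cousU, cousUU]
    exact (((hS.const_mul m).const_mul ((1 - m ^ 2) / (2 * m))).mul_const (cos v)).div_const a
  · simp only [cousU, cousUU]
    exact (((hS.const_mul m).const_mul ((1 - m ^ 2) / (2 * m))).mul_const (sin v)).div_const a
  · simp only [cousU, cousUU]
    refine HasDerivAt.congr_deriv ((((hc.mul hC).sub ((hs.mul hS).const_mul m)).const_mul
      ((1 - m ^ 2) / (2 * m))).div_const a) ?_
    simp
    field_simp
    ring

lemma dV_cousU (a m : ℝ) : dV (cousU a m) = cousUV a m := by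
  funext u v
  apply HasDerivAt.deriv
  rw [hasDerivAt_pi]
  have hc := Real.hasDerivAt_cos v
  have hs := Real.hasDerivAt_sin v
  intro i
  fin_cases i
  · simp only [cousU, cousUV]
    exact hasDerivAt_const _ _
  · simp only [cousU, cousUV]
    exact (hc.const_mul ((1 - m ^ 2) / (2 * m) * (m * sinh (m * u)))).div_const a
  · simp only [cousU, cousUV]
    exact (hs.const_mul ((1 - m ^ 2) / (2 * m) * (m * sinh (m * u)))).div_const a
  · simp only [cousU, cousUV]
    exact hasDerivAt_const _ _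

lemma dV_cousV (a m : ℝ) : dV (cousV a m) = cousVV a m := by
  funext u v
  apply HasDerivAt.deriv
  rw [hasDerivAt_pi]
  have hc := Real.hasDerivAt_cos v
  have hs := (Real.hasDerivAt_sin v).neg
  intro i
  fin_cases i
  · simp only [cousV, cousVV]
    exact hasDerivAt_const _ _
  · simp only [cousV, cousVV]
    exact (hs.const_mul ((1 - m ^ 2) / (2 * m) * cosh (m * u))).div_const a
  · simp only [cousV, cousVV]
    exact (hc.const_mul ((1 - m ^ 2) / (2 * m) * cosh (m * u))).div_const a
  · simp only [cousV, cousVV]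
    exact hasDerivAt_const _ _

/-! ### First and second fundamental forms -/

lemma cE_cous (a m u v : ℝ) (hm : m ≠ 0) :
    cE (cous a m) u v = ((1 - m ^ 2) / (2 * m) * cosh (m * u) / a) ^ 2 := by
  have h1 := Real.cosh_sq u
  have h2 := Real.cosh_sq (m * u)
  have h3 := Real.sin_sq_add_cos_sq v
  simp only [cE, dU_cous a m hm, mink, cousU]
  simp
  generalize (1 - m ^ 2) / (2 * m) = Q
  generalize cosh u = c at *
  generalize sinh u = s at *
  generalize cosh (m * u) = C at *
  generalize sinh (m * u) = S at *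
  generalize cos v = x at *
  generalize sin v = y at *
  have e : ∀ t : ℝ, t / a = t * a⁻¹ := fun t => div_eq_mul_inv t a
  simp only [e]
  generalize a⁻¹ = b
  linear_combination (Q * b) ^ 2 * (C ^ 2 - m ^ 2 * S ^ 2) * h1 + (Q * b) ^ 2 * m ^ 2 * S ^ 2 * h3

lemma cF_cous (a m u v : ℝ) (hm : m ≠ 0) : cF (cous a m) u v = 0 := by
  simp only [cF, dU_cous a m hm, dV_cous, mink, cousU, cousV]
  simp
  ring

lemma cG_cous (a m u v : ℝ) :
    cG (cous a m) u v = ((1 - m ^ 2) / (2 * m) * cosh (m * u) / a) ^ 2 := by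
  have h3 := Real.sin_sq_add_cos_sq v
  simp only [cG, dV_cous, mink, cousV]
  simp
  generalize (1 - m ^ 2) / (2 * m) = Q
  generalize cosh (m * u) = C at *
  generalize cos v = x at *
  generalize sin v = y at *
  have e : ∀ t : ℝ, t / a = t * a⁻¹ := fun t => div_eq_mul_inv t a
  simp only [e]
  generalize a⁻¹ = b
  linear_combination (Q * b * C) ^ 2 * h3

/-- Coefficients of the second fundamental form. -/
lemma e_cous (a m u v : ℝ) (hm : m ≠ 0) (ha : a ≠ 0) :
    mink (dU (dU (cous a m)) u v) (nrm m u v)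
      = ((1 - m ^ 2) / (2 * m) * ((1 - m ^ 2) / (2 * m) * cosh (m * u) ^ 2 - m)) / a := by
  have h1 := Real.cosh_sq u
  have h2 := Real.cosh_sq (m * u)
  have h3 := Real.sin_sq_add_cos_sq v
  have hC : cosh (m * u) ≠ 0 := (Real.cosh_pos _).ne'
  simp only [dU_cous a m hm, dU_cousU a m hm, mink, cousUU, nrm]
  simp
  generalize cosh u = c at *
  generalize sinh u = s at *
  generalize cosh (m * u) = C at *
  generalize sinh (m * u) = S at *
  generalize cos v = x at *
  generalize sin v = y at *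
  have hs : s ^ 2 = c ^ 2 - 1 := by linarith
  have hS : S ^ 2 = C ^ 2 - 1 := by linarith
  have hy : y ^ 2 = 1 - x ^ 2 := by linarith
  field_simp
  ring_nf
  simp only [hs, hy]
  ring_nf

lemma f_cous (a m u v : ℝ) (hm : m ≠ 0) :
    mink (dV (dU (cous a m)) u v) (nrm m u v) = 0 := by
  simp only [dU_cous a m hm, dV_cousU, mink, cousUV, nrm]
  simp
  ring

lemma g_cous (a m u v : ℝ) (ha : a ≠ 0) :
    mink (dV (dV (cous a m)) u v) (nrm m u v)
      = ((1 - m ^ 2) / (2 * m) * ((1 - m ^ 2) / (2 * m) * cosh (m * u) ^ 2 + m)) / a := by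
  have h3 := Real.sin_sq_add_cos_sq v
  have hC : cosh (m * u) ≠ 0 := (Real.cosh_pos _).ne'
  simp only [dV_cous, dV_cousV, mink, cousVV, nrm]
  simp
  generalize (1 - m ^ 2) / (2 * m) = Q
  generalize cosh (m * u) = C at *
  generalize cos v = x at *
  generalize sin v = y at *
  have hy : y ^ 2 = 1 - x ^ 2 := by linarith
  field_simp
  ring_nf
  simp only [hy]
  ring_nf

lemma isUnitNormal_cous (a m : ℝ) (hm : m ≠ 0) : IsUnitNormal (cous a m) (nrm m) := by
  intro u v
  have h1 := Real.cosh_sq u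
  have h2 := Real.cosh_sq (m * u)
  have h3 := Real.sin_sq_add_cos_sq v
  have hC : cosh (m * u) ≠ 0 := (Real.cosh_pos _).ne'
  simp only [dU_cous a m hm, dV_cous, mink, cous, cousU, cousV, nrm]
  simp
  generalize cosh u = c at *
  generalize sinh u = s at *
  generalize cosh (m * u) = C at *
  generalize sinh (m * u) = S at *
  generalize cos v = x at *
  generalize sin v = y at *
  have hs : s ^ 2 = c ^ 2 - 1 := by linarith
  have hS : S ^ 2 = C ^ 2 - 1 := by linarith
  have hy : y ^ 2 = 1 - x ^ 2 := by linarith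
  have e : ∀ t : ℝ, t / a = t * a⁻¹ := fun t => div_eq_mul_inv t a
  simp only [e]
  generalize a⁻¹ = b
  refine ⟨?_, ?_, ?_, ?_⟩
  · field_simp
    ring_nf
    simp only [hs, hS, hy]
    ring_nf
  · field_simp
    ring_nf
    simp only [hs, hS, hy]
    ring_nf
  · field_simp
    ring_nf
    simp only [hs, hy]
    ring_nf
  · ring

lemma meanCurv_cous (a m u v : ℝ) (hm : m ≠ 0) (ha : a ≠ 0) (hQ : 1 - m ^ 2 ≠ 0) :
    meanCurv (cous a m) (nrm m) u v = a := by
  have hC : cosh (m * u) ≠ 0 := (Real.cosh_pos _).ne'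
  have hQ' : (1 - m ^ 2) / (2 * m) ≠ 0 := div_ne_zero hQ (by simpa using hm)
  rw [meanCurv, e_cous a m u v hm ha, f_cous a m u v hm, g_cous a m u v ha,
    cE_cous a m u v hm, cF_cous a m u v hm, cG_cous a m u v]
  generalize (1 - m ^ 2) / (2 * m) = Q at *
  generalize cosh (m * u) = C at *
  field_simp
  ring

lemma mem_hyp_cous (a m u v : ℝ) (hm : 0 < m) (ha : 0 < a) (hm1 : m < 1) :
    cous a m u v ∈ Hyp a := by
  have h1 := Real.cosh_sq u
  have h2 := Real.cosh_sq (m * u)
  have h3 := Real.sin_sq_add_cos_sq v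
  refine ⟨?_, ?_⟩
  · simp only [mink, cous]
    simp
    generalize cosh u = c at *
    generalize sinh u = s at *
    generalize cosh (m * u) = C at *
    generalize sinh (m * u) = S at *
    generalize cos v = x at *
    generalize sin v = y at *
    have hs : s ^ 2 = c ^ 2 - 1 := by linarith
    have hS : S ^ 2 = C ^ 2 - 1 := by linarith
    have hy : y ^ 2 = 1 - x ^ 2 := by linarith
    field_simp
    ring_nf
    simp only [hs, hS, hy]
    ring_nf
  · have hx : cous a m u v 0 = ((1 + m ^ 2) / (2 * m) * cosh u * cosh (m * u)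
        - sinh u * sinh (m * u)) / a := by
      simp [cous]
    rw [hx]
    apply div_pos _ ha
    have hP : 1 < (1 + m ^ 2) / (2 * m) := by
      rw [lt_div_iff₀ (by positivity)]
      nlinarith [sq_nonneg (1 - m), mul_pos (sub_pos.2 hm1) (sub_pos.2 hm1)]
    have hcc : 0 < cosh u * cosh (m * u) := mul_pos (Real.cosh_pos _) (Real.cosh_pos _)
    have hlt : 0 < cosh (u - m * u) := Real.cosh_pos _
    rw [Real.cosh_sub] at hlt
    nlinarith [mul_pos (sub_pos.2 hP) hcc]

lemma contDiff_cous (a m : ℝ) :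
    ContDiff ℝ ((⊤ : ℕ∞) : WithTop ℕ∞) (fun p : ℝ × ℝ => cous a m p.1 p.2) := by
  rw [contDiff_pi]
  intro i
  fin_cases i
  · simp only [cous]
    simp
    fun_prop
  · simp only [cous]
    simp
    fun_prop
  · simp only [cous]
    simp
    fun_prop
  · simp only [cous]
    simp
    fun_prop

lemma mink_lin (x y z : Fin 4 → ℝ) (s t : ℝ) :
    mink x (s • y + t • z) = s * mink x y + t * mink x z := by
  simp only [mink, Pi.add_apply, Pi.smul_apply, smul_eq_mul]
  ring

lemma mink_comm (x y : Fin 4 → ℝ) : mink x y = mink y x := by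
  simp only [mink]
  ring

lemma mink_zero (x : Fin 4 → ℝ) : mink x 0 = 0 := by
  simp [mink]

lemma immersed_cous (a m u v : ℝ) (hm : m ≠ 0) (ha : a ≠ 0) (hQ : 1 - m ^ 2 ≠ 0) :
    LinearIndependent ℝ ![dU (cous a m) u v, dV (cous a m) u v] := by
  have hC : cosh (m * u) ≠ 0 := (Real.cosh_pos _).ne'
  have hQ' : (1 - m ^ 2) / (2 * m) ≠ 0 := div_ne_zero hQ (by simpa using hm)
  have hE : cE (cous a m) u v ≠ 0 := by
    rw [cE_cous a m u v hm]
    positivity
  have hG : cG (cous a m) u v ≠ 0 := by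
    rw [cG_cous a m u v]
    positivity
  have hF := cF_cous a m u v hm
  rw [LinearIndependent.pair_iff]
  intro s t h
  constructor
  · have h1 : mink (dU (cous a m) u v) (s • dU (cous a m) u v + t • dV (cous a m) u v) = 0 := by
      rw [h, mink_zero]
    rw [mink_lin] at h1
    change s * cE (cous a m) u v + t * cF (cous a m) u v = 0 at h1
    rw [hF, mul_zero, add_zero] at h1
    exact (mul_eq_zero.1 h1).resolve_right hE
  · have h1 : mink (dV (cous a m) u v) (s • dU (cous a m) u v + t • dV (cous a m) u v) = 0 := by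
      rw [h, mink_zero]
    rw [mink_lin, mink_comm (dV (cous a m) u v) (dU (cous a m) u v)] at h1
    change s * cF (cous a m) u v + t * cG (cous a m) u v = 0 at h1
    rw [hF, mul_zero, zero_add] at h1
    exact (mul_eq_zero.1 h1).resolve_right hG

lemma embedded_cous (a m : ℝ) (hm : 0 < m) (ha : 0 < a) (hm1 : m < 1) (u v u' v' : ℝ)
    (h : cous a m u v = cous a m u' v') : u = u' ∧ ∃ k : ℤ, v' = v + k * (2 * π) := by
  have h0 := congrFun h 0
  have h1 := congrFun h 1
  have h2 := congrFun h 2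
  have h3 := congrFun h 3
  simp only [cous] at h0 h1 h2 h3
  simp at h0 h1 h2 h3
  rw [div_left_inj' ha.ne'] at h0 h1 h2 h3
  have hu : u = u' := by
    have key : StrictMono (fun t : ℝ => ((1 + m ^ 2) / (2 * m) - 1) / 2 * exp ((1 + m) * t)
        + ((1 + m ^ 2) / (2 * m) + 1) / 2 * exp ((1 - m) * t)) := by
      have hP : 1 < (1 + m ^ 2) / (2 * m) := by
        rw [lt_div_iff₀ (by positivity)]
        nlinarith [sq_nonneg (1 - m), mul_pos (sub_pos.2 hm1) (sub_pos.2 hm1)]
      intro s t hst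
      have e1 : exp ((1 + m) * s) < exp ((1 + m) * t) := by
        apply Real.exp_lt_exp.2
        exact mul_lt_mul_of_pos_left hst (by linarith)
      have e2 : exp ((1 - m) * s) < exp ((1 - m) * t) := by
        apply Real.exp_lt_exp.2
        exact mul_lt_mul_of_pos_left hst (by linarith)
      have := mul_lt_mul_of_pos_left e1 (show 0 < ((1 + m ^ 2) / (2 * m) - 1) / 2 by linarith)
      have := mul_lt_mul_of_pos_left e2 (show 0 < ((1 + m ^ 2) / (2 * m) + 1) / 2 by linarith)
      simp only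
      linarith
    have expand : ∀ t : ℝ, ((1 + m ^ 2) / (2 * m) - 1) / 2 * exp ((1 + m) * t)
        + ((1 + m ^ 2) / (2 * m) + 1) / 2 * exp ((1 - m) * t)
        = ((1 + m ^ 2) / (2 * m) * cosh t * cosh (m * t) - sinh t * sinh (m * t))
          + ((1 + m ^ 2) / (2 * m) * sinh t * cosh (m * t) - cosh t * sinh (m * t)) := by
      intro t
      rw [show (1 + m) * t = t + m * t by ring, show (1 - m) * t = t + -(m * t) by ring,
        Real.exp_add, Real.exp_add, Real.cosh_eq t, Real.sinh_eq t, Real.cosh_eq (m * t),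
        Real.sinh_eq (m * t)]
      generalize (1 + m ^ 2) / (2 * m) = P
      ring
    apply key.injective
    simp only
    rw [expand, expand, h0, h3]
  subst hu
  refine ⟨rfl, ?_⟩
  have hC : cosh (m * u) ≠ 0 := (Real.cosh_pos _).ne'
  have hQ' : (1 - m ^ 2) / (2 * m) ≠ 0 := by
    apply ne_of_gt
    apply div_pos _ (by positivity)
    nlinarith
  have hcos : cos v' = cos v := (mul_left_cancel₀ (mul_ne_zero hQ' hC) h1).symm
  have hsin : sin v' = sin v := (mul_left_cancel₀ (mul_ne_zero hQ' hC) h2).symm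
  have hang := Real.Angle.cos_sin_inj hcos hsin
  rw [Real.Angle.angle_eq_iff_two_pi_dvd_sub] at hang
  obtain ⟨k, hk⟩ := hang
  exact ⟨k, by linarith⟩

lemma area_cous (a m U : ℝ) (hm : 0 < m) (hU : 0 ≤ U) :
    4 * π * U * ((1 - m ^ 2) / (2 * m) / a) ^ 2 ≤ area (cous a m) U := by
  have hcont : Continuous (fun u : ℝ => ((1 - m ^ 2) / (2 * m) * cosh (m * u) / a) ^ 2) := by
    fun_prop
  have h1 : area (cous a m) U
      = ∫ u in (-U)..U, (2 * π) * ((1 - m ^ 2) / (2 * m) * cosh (m * u) / a) ^ 2 := by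
    unfold area
    congr 1
    funext u
    have : ∀ v : ℝ, √(cE (cous a m) u v * cG (cous a m) u v - cF (cous a m) u v ^ 2)
        = ((1 - m ^ 2) / (2 * m) * cosh (m * u) / a) ^ 2 := by
      intro v
      rw [cE_cous a m u v hm.ne', cF_cous a m u v hm.ne', cG_cous a m u v]
      rw [show ∀ q : ℝ, q ^ 2 * q ^ 2 - 0 ^ 2 = (q ^ 2) ^ 2 by intro q; ring]
      exact Real.sqrt_sq (sq_nonneg _)
    simp only [this]
    rw [intervalIntegral.integral_const]
    simp
  rw [h1]
  have h2 : ∫ u in (-U)..U, (2 * π) * ((1 - m ^ 2) / (2 * m) / a) ^ 2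
      = 4 * π * U * ((1 - m ^ 2) / (2 * m) / a) ^ 2 := by
    rw [intervalIntegral.integral_const]
    simp
    ring
  rw [← h2]
  apply intervalIntegral.integral_mono_on (by linarith)
  · exact continuous_const.intervalIntegrable _ _
  · exact (continuous_const.mul hcont).intervalIntegrable _ _
  · intro u _
    apply mul_le_mul_of_nonneg_left _ (by positivity)
    have hc := Real.one_le_cosh (m * u)
    have : ((1 - m ^ 2) / (2 * m) * cosh (m * u) / a) ^ 2
        = ((1 - m ^ 2) / (2 * m) / a) ^ 2 * cosh (m * u) ^ 2 := by ring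
    rw [this]
    apply le_mul_of_one_le_right (sq_nonneg _)
    nlinarith

lemma bdryLength_cous (a m U : ℝ) (hm : 0 < m) (ha : 0 < a) (hm1 : m < 1) :
    bdryLength (cous a m) U = 4 * π * ((1 - m ^ 2) / (2 * m) / a) * cosh (m * U) := by
  have hQ' : 0 ≤ (1 - m ^ 2) / (2 * m) := by
    apply div_nonneg _ (by positivity)
    nlinarith
  have h : ∀ u v : ℝ, √(cG (cous a m) u v) = (1 - m ^ 2) / (2 * m) * cosh (m * u) / a := by
    intro u v
    rw [cG_cous a m u v]
    apply Real.sqrt_sq
    have := Real.cosh_pos (m * u)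
    positivity
  unfold bdryLength
  simp only [h]
  rw [intervalIntegral.integral_const, intervalIntegral.integral_const,
    show m * -U = -(m * U) by ring, Real.cosh_neg]
  simp
  ring

/-- **Main theorem.**  For every `a ≠ 0` and every constant `C` there is a smooth embedded compact
annulus in hyperbolic 3-space of curvature `-a^2` whose mean curvature is constant equal to `|a|`
and whose area `A` and total boundary length `L` satisfy `A > C L^2`. -/
theorem main_result (a : ℝ) (ha : a ≠ 0) (C : ℝ) :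
    ∃ (X ν : ℝ → ℝ → Fin 4 → ℝ) (U : ℝ), 0 < U ∧ IsEmbeddedAnnulus a X ∧ IsUnitNormal X ν ∧
      (∀ u v, meanCurv X ν u v = |a|) ∧ C * bdryLength X U ^ 2 < area X U := by
  have hb : 0 < |a| := abs_pos.2 ha
  set K := |C| + 1 with hK
  have hKpos : 0 < K := by positivity
  have hcp : 0 < cosh 1 := Real.cosh_pos 1
  have hc1 : 1 ≤ cosh 1 := Real.one_le_cosh 1
  have hpi := Real.pi_gt_three
  set D := 4 * π * K * cosh 1 ^ 2 with hD
  have hDpos : 0 < D := by positivity
  have hD1 : 1 < D := by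
    have h1 : (1 : ℝ) ≤ cosh 1 ^ 2 := by nlinarith
    have h2 : (1 : ℝ) ≤ K := by simp [hK]
    have h3 : (1 : ℝ) ≤ K * cosh 1 ^ 2 := by nlinarith
    have h4 : D = 4 * π * (K * cosh 1 ^ 2) := by rw [hD]; ring
    rw [h4]
    nlinarith
  set m := 1 / (2 * D) with hmdef
  have hm : 0 < m := by positivity
  have hm1 : m < 1 := by
    rw [hmdef, div_lt_one (by positivity)]
    linarith
  have hQ : 1 - m ^ 2 ≠ 0 := by
    have : 0 < 1 - m ^ 2 := by nlinarith
    exact this.ne'
  refine ⟨cous |a| m, nrm m, 1 / m, by positivity, ⟨contDiff_cous _ _, ?_, ?_, ?_, ?_⟩,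
    isUnitNormal_cous _ _ hm.ne', ?_, ?_⟩
  · intro u v
    have := mem_hyp_cous |a| m u v hm hb hm1
    simpa [Hyp, sq_abs] using this
  · intro u v
    simp [cous]
  · intro u v
    exact immersed_cous _ _ _ _ hm.ne' hb.ne' hQ
  · intro u v u' v' h
    exact embedded_cous _ _ hm hb hm1 _ _ _ _ h
  · intro u v
    exact meanCurv_cous _ _ _ _ hm.ne' hb.ne' hQ
  · rw [bdryLength_cous _ _ _ hm hb hm1]
    refine lt_of_lt_of_le ?_ (area_cous |a| m (1 / m) hm (by positivity))
    have hmm : m * (1 / m) = 1 := by field_simp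
    rw [hmm]
    have hq : 0 < ((1 - m ^ 2) / (2 * m) / |a|) ^ 2 := by
      have : 0 < 1 - m ^ 2 := by nlinarith
      positivity
    have e1 : C * (4 * π * ((1 - m ^ 2) / (2 * m) / |a|) * cosh 1) ^ 2
        = (4 * π * (4 * π * C * cosh 1 ^ 2)) * ((1 - m ^ 2) / (2 * m) / |a|) ^ 2 := by ring
    rw [e1]
    apply mul_lt_mul_of_pos_right _ hq
    have h5 : C < K := by
      rw [hK]
      linarith [le_abs_self C]
    have h6 : 4 * π * C * cosh 1 ^ 2 < D := by
      rw [hD]
      have : 0 < π * cosh 1 ^ 2 := by positivity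
      nlinarith
    have h7 : (1 : ℝ) / m = 2 * D := by
      rw [hmdef]
      field_simp
    rw [h7]
    nlinarith

end Pool.CC
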